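import Pool.Agent.Lib.MP_c7af3c_ag.SHARP.H75.Dco

/-!
# MP_c7af3c_ag, project EDGE: plane sections have no factors (helper65)

`D : DSys L n c d` (forms with dual derivations).  `ssub P` is the restriction of a form to the
plane spanned by `P 0, P 1, P 2`.
* `nofactor_gen`: the dimension count for a common factor `g` of the restrictions.
* `nofactor`: `c = 1`: the restriction is not `g g'` with `3 n < deg g * deg g' + 6`.
* `sec_ne_zero`: `c = 1`, `d ≥ 4`..: the restriction is not zero.
* `smooth`, `smooth_one`: no singular points.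
-/

set_option autoImplicit false

namespace Pool.Agent.Edge.H65

open MvPolynomial Pool.Agent.Gen Pool.Agent.Sharp.H75

/-! ### forms in three variables -/

section dims

variable (K : Type) [Field K]

theorem finite_hom3 (T : ℕ) : Module.Finite K (homogeneousSubmodule (Fin 3) K T) :=
  Module.Finite.iff_fg.2 (homogeneousSubmodule_fg (Fin 3) K T)

theorem finrank_hom3 (T : ℕ) :
    Module.finrank K (homogeneousSubmodule (Fin 3) K T) = (T + 2).choose 2 := by
  have h2 : homogeneousSubmodule (Fin 3) K T = restrictSupport K {d | d.degree = T} :=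
    homogeneousSubmodule_eq_finsupp_supported (Fin 3) K T
  rw [h2, Module.finrank_eq_nat_card_basis
    (basisRestrictSupport K {d : Fin 3 →₀ ℕ | d.degree = T})]
  have h3 : {d : Fin 3 →₀ ℕ | d.degree = T} =
      ((Finset.univ : Finset (Fin 3)).finsuppAntidiag T : Set (Fin 3 →₀ ℕ)) := by
    ext d
    simp [Finsupp.degree_eq_sum]
  rw [h3, Nat.card_coe_set_eq, Set.ncard_coe_finset, Finset.card_finsuppAntidiag_nat_eq_choose,
    Finset.card_univ, Fintype.card_fin]
  have : 3 + T - 1 = T + 2 := by omega
  rw [this]
  exact Nat.choose_symm_add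

end dims

/-! ### the restriction to a plane -/

section sub

variable {L : Type} [Field L] {n : ℕ} (P : Fin 3 → Fin (n + 1) → L)

/-- the restriction to the plane spanned by `P 0, P 1, P 2` -/
noncomputable def ssub : MvPolynomial (Fin (n + 1)) L →ₐ[L] MvPolynomial (Fin 3) L :=
  aeval fun j => ∑ i, C (P i j) * X i

theorem ssub_X (j : Fin (n + 1)) : ssub P (X j) = ∑ i, C (P i j) * X i := by
  unfold ssub
  rw [aeval_X]

theorem ssub_C (a : L) : ssub P (C a) = C a := by
  unfold ssub
  rw [aeval_C]
  rfl

theorem form_hom (u : Fin 3 → L) : (∑ i, C (u i) * X i : MvPolynomial (Fin 3) L).IsHomogeneous 1 := by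
  refine IsHomogeneous.sum _ _ _ fun i _ => ?_
  simpa using (isHomogeneous_C _ (u i)).mul (isHomogeneous_X L i)

theorem ssub_hom {F : MvPolynomial (Fin (n + 1)) L} {e : ℕ} (hF : F.IsHomogeneous e) :
    (ssub P F).IsHomogeneous e := by
  have h := hF.aeval (fun j => ∑ i, C (P i j) * X i) (n := 1) fun j => form_hom fun i => P i j
  rwa [one_mul] at h

theorem dco_ssub (δ : Derivation ℤ L L) (F : MvPolynomial (Fin (n + 1)) L) :
    dco δ (ssub P F) = ssub P (dco δ F) +
      ∑ p, ssub P (pderiv p F) * ∑ i, C (δ (P i p)) * X i := by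
  classical
  induction F using MvPolynomial.induction_on with
  | C a =>
    rw [ssub_C, dco_C, dco_C, ssub_C]
    simp
  | add F G hF hG =>
    rw [map_add, dco_add, hF, hG, dco_add, map_add]
    simp only [map_add, add_mul, Finset.sum_add_distrib]
    ring
  | mul_X F j hF =>
    rw [map_mul, dco_mul, hF, dco_mul, dco_X, mul_zero, add_zero, map_mul]
    have h1 : dco δ (ssub P (X j)) = ∑ i, C (δ (P i j)) * X i := by
      rw [ssub_X, dco_sum]
      refine Finset.sum_congr rfl fun i _ => ?_
      rw [dco_mul, dco_C, dco_X, mul_zero, add_zero]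
    have h2 : ∀ p, ssub P (pderiv p (F * X j)) * ∑ i, C (δ (P i p)) * X i =
        ssub P (pderiv p F) * (∑ i, C (δ (P i p)) * X i) * ssub P (X j) +
          if p = j then ssub P F * ∑ i, C (δ (P i p)) * X i else 0 := by
      intro p
      rw [Derivation.leibniz]
      simp only [smul_eq_mul]
      rw [map_add, map_mul, map_mul]
      split_ifs with h
      · subst h
        rw [pderiv_X_self, map_one]
        ring
      · rw [pderiv_X_of_ne (Ne.symm h), map_zero]
        ring
    simp only [h2, Finset.sum_add_distrib, h1, Finset.sum_ite_eq', Finset.mem_univ, if_true]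
    rw [add_mul, Finset.sum_mul]
    ring

theorem pderiv_ssub (k : Fin 3) (F : MvPolynomial (Fin (n + 1)) L) :
    pderiv k (ssub P F) = ∑ p, C (P k p) * ssub P (pderiv p F) := by
  classical
  induction F using MvPolynomial.induction_on with
  | C a => rw [ssub_C]; simp
  | add F G hF hG =>
    rw [map_add, map_add, hF, hG]
    simp only [map_add, mul_add, Finset.sum_add_distrib]
  | mul_X F j hF =>
    rw [map_mul, Derivation.leibniz, hF]
    have h1 : pderiv k (ssub P (X j)) = C (P k j) := by
      rw [ssub_X, map_sum, Finset.sum_eq_single k]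
      · rw [Derivation.leibniz, pderiv_X_self, pderiv_C]
        simp
      · intro i _ hi
        rw [Derivation.leibniz, pderiv_X_of_ne hi, pderiv_C]
        simp
      · intro h
        exact absurd (Finset.mem_univ _) h
    have h2 : ∀ p, C (P k p) * ssub P (pderiv p (F * X j)) =
        C (P k p) * ssub P (pderiv p F) * ssub P (X j) +
          if p = j then C (P k p) * ssub P F else 0 := by
      intro p
      rw [Derivation.leibniz]
      simp only [smul_eq_mul]
      rw [map_add, map_mul, map_mul]
      split_ifs with h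
      · subst h
        rw [pderiv_X_self, map_one]
        ring
      · rw [pderiv_X_of_ne (Ne.symm h), map_zero]
        ring
    simp only [h2, Finset.sum_add_distrib, h1, Finset.sum_ite_eq', Finset.mem_univ, if_true,
      smul_eq_mul]
    rw [← Finset.sum_mul]
    ring

/-- dual vectors of three independent vectors -/
theorem exists_dual (hP : LinearIndependent L P) :
    ∃ Q : Fin 3 → Fin (n + 1) → L, ∀ i i', ∑ j, Q i j * P i' j = if i = i' then 1 else 0 := by
  classical
  obtain ⟨g, hg⟩ := LinearMap.exists_leftInverse_of_injective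
    (Fintype.linearCombination L P)
    (LinearMap.ker_eq_bot.2 (linearIndependent_iff_injective_fintypeLinearCombination.1 hP))
  refine ⟨fun i j => g (Pi.single j 1) i, fun i i' => ?_⟩
  have h1 : g (P i') = Pi.single i' 1 := by
    have h2 := LinearMap.congr_fun hg (Pi.single i' 1)
    rw [LinearMap.comp_apply, LinearMap.id_apply, Fintype.linearCombination_apply_single,
      one_smul] at h2
    exact h2
  have h3 : P i' = ∑ j, P i' j • (Pi.single j 1 : Fin (n + 1) → L) := by
    rw [← pi_eq_sum_univ' (P i')]
  have h4 : g (P i') i = ∑ j, g (Pi.single j 1) i * P i' j := by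
    conv_lhs => rw [h3]
    rw [map_sum, Finset.sum_apply]
    refine Finset.sum_congr rfl fun j _ => ?_
    rw [map_smul, Pi.smul_apply, smul_eq_mul, mul_comm]
  rw [← h4, h1, Pi.single_apply]

/-- every form on the plane is a restriction -/
theorem ssub_surj (hP : LinearIndependent L P) {G : MvPolynomial (Fin 3) L} {e : ℕ}
    (hG : G.IsHomogeneous e) : ∃ A : MvPolynomial (Fin (n + 1)) L, A.IsHomogeneous e ∧
      ssub P A = G := by
  classical
  obtain ⟨Q, hQ⟩ := exists_dual P hP
  refine ⟨aeval (fun i => ∑ j, C (Q i j) * X j) G, ?_, ?_⟩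
  · have h := hG.aeval (fun i => ∑ j, C (Q i j) * X j : Fin 3 → MvPolynomial (Fin (n + 1)) L)
      (n := 1) fun i => by
        refine IsHomogeneous.sum _ _ _ fun j _ => ?_
        simpa using (isHomogeneous_C _ (Q i j)).mul (isHomogeneous_X L j)
    rwa [one_mul] at h
  · have h : (ssub P).comp (aeval (fun i => ∑ j, C (Q i j) * X j :
        Fin 3 → MvPolynomial (Fin (n + 1)) L)) = AlgHom.id L _ := by
      apply MvPolynomial.algHom_ext
      intro i
      rw [AlgHom.comp_apply, aeval_X, map_sum, AlgHom.id_apply]
      simp only [map_mul, ssub_C, ssub_X, Finset.mul_sum]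
      rw [Finset.sum_comm]
      have h5 : ∀ i', ∑ j, C (Q i j) * (C (P i' j) * X i' : MvPolynomial (Fin 3) L) =
          if i = i' then X i' else 0 := by
        intro i'
        have h6 := hQ i i'
        have : ∑ j, C (Q i j) * (C (P i' j) * X i' : MvPolynomial (Fin 3) L) =
            C (∑ j, Q i j * P i' j) * X i' := by
          rw [map_sum, Finset.sum_mul]
          refine Finset.sum_congr rfl fun j _ => ?_
          rw [C_mul]
          ring
        rw [this, h6]
        split_ifs <;> simp
      simp only [h5, Finset.sum_ite_eq, Finset.mem_univ, if_true]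
    exact AlgHom.congr_fun h G

end sub

/-! ### the count -/

section count

variable {L : Type} [Field L] {n c : ℕ} {d : Fin c → ℕ} (D : DSys L n c d)
  (P : Fin 3 → Fin (n + 1) → L)

theorem dco_F (m m' : Fin c) (I : Fin (n + 1) →₀ ℕ) (hI : I.degree = d m) :
    dco (D.del m I) (D.F m') = if m = m' then monomial I 1 else 0 := by
  classical
  ext J
  rw [coeff_dco]
  by_cases hJ : J.degree = d m'
  · rw [D.dual m I m' J hI hJ]
    by_cases hm : m = m'
    · rw [if_pos hm, coeff_monomial]
      by_cases hIJ : I = J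
      · rw [if_pos ⟨hm, hIJ⟩, if_pos hIJ]
      · rw [if_neg (fun h => hIJ h.2), if_neg hIJ]
    · rw [if_neg (fun h => hm h.1), if_neg hm, coeff_zero]
  · have h0 : coeff J (D.F m') = 0 := (D.hom m').coeff_eq_zero (by
      rwa [Finsupp.degree_eq_sum, ← Finsupp.degree_eq_sum] )
    rw [h0, map_zero]
    split_ifs with hm
    · rw [coeff_monomial, if_neg]
      rintro rfl
      subst hm
      exact hJ hI
    · rw [coeff_zero]

/-- forms of degree `e - δ` -/
noncomputable def U3 (L : Type) [Field L] (δ e : ℕ) : Submodule L (MvPolynomial (Fin 3) L) :=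
  if δ ≤ e then homogeneousSubmodule (Fin 3) L (e - δ) else ⊥

theorem U3_pos {δ e : ℕ} (h : δ ≤ e) : U3 L δ e = homogeneousSubmodule (Fin 3) L (e - δ) :=
  if_pos h

theorem U3_neg {δ e : ℕ} (h : ¬ δ ≤ e) : U3 L δ e = ⊥ := if_neg h

theorem finite_U3 (δ e : ℕ) : Module.Finite L (U3 L δ e) := by
  by_cases h : δ ≤ e
  · rw [U3_pos h]
    exact finite_hom3 L _
  · rw [U3_neg h]
    infer_instance

theorem finrank_U3 (δ e : ℕ) :
    Module.finrank L (U3 L δ e) = if δ ≤ e then (e - δ + 2).choose 2 else 0 := by
  by_cases h : δ ≤ e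
  · rw [U3_pos h, if_pos h]
    exact finrank_hom3 L _
  · rw [U3_neg h, if_neg h]
    exact finrank_bot L _

theorem dco_U3 (δ e : ℕ) (D0 : Derivation ℤ L L) {G : MvPolynomial (Fin 3) L}
    (hG : G ∈ U3 L δ e) : dco D0 G ∈ U3 L δ e := by
  unfold U3 at hG ⊢
  split_ifs at hG ⊢
  · exact dco_hom D0 hG
  · rw [Submodule.mem_bot] at hG ⊢
    rw [hG, dco_zero]

theorem euler_U3 (δ e : ℕ) (i k : Fin 3) {G : MvPolynomial (Fin 3) L}
    (hG : G ∈ U3 L δ e) : X i * pderiv k G ∈ U3 L δ e := by
  unfold U3 at hG ⊢
  split_ifs at hG ⊢ with h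
  · rw [mem_homogeneousSubmodule] at hG ⊢
    rcases Nat.eq_zero_or_pos (e - δ) with h0 | h0
    · rw [h0] at hG ⊢
      have h1 : pderiv k G = 0 := by
        have h2 : G = C (coeff 0 G) := (totalDegree_eq_zero_iff_eq_C).1
          (Nat.le_zero.1 hG.totalDegree_le)
        rw [h2, pderiv_C]
      rw [h1, mul_zero]
      exact isHomogeneous_zero _ _ _
    · have h1 := (isHomogeneous_X L i).mul (hG.pderiv (i := k))
      rwa [show 1 + (e - δ - 1) = e - δ by omega] at h1
  · rw [Submodule.mem_bot] at hG ⊢
    rw [hG, map_zero, mul_zero]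

/-- the map of the count -/
noncomputable def Psi (g : MvPolynomial (Fin 3) L) (G : Fin c → MvPolynomial (Fin 3) L) (δ : ℕ) :
    (homogeneousSubmodule (Fin 3) L δ × (∀ m, U3 L δ (d m))) × (Fin 3 → Fin (n + 1) → L) →ₗ[L]
      (Fin c → MvPolynomial (Fin 3) L) where
  toFun z m := (z.1.1 : MvPolynomial (Fin 3) L) * G m + g * (z.1.2 m : MvPolynomial (Fin 3) L) +
    ∑ p, ssub P (pderiv p (D.F m)) * ∑ i, C (z.2 i p) * X i
  map_add' z z' := by
    funext m
    simp only [Prod.fst_add, Prod.snd_add, Submodule.coe_add, Pi.add_apply, C_add, add_mul,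
      Finset.sum_add_distrib, mul_add]
    ring
  map_smul' a z := by
    funext m
    simp only [Prod.smul_fst, Prod.smul_snd, Submodule.coe_smul, Pi.smul_apply, RingHom.id_apply,
      smul_eq_C_mul, smul_eq_mul, C_mul]
    rw [mul_add, mul_add, Finset.mul_sum]
    refine congrArg₂ _ (by ring) (Finset.sum_congr rfl fun p _ => ?_)
    rw [mul_left_comm]
    refine congrArg _ ?_
    rw [Finset.mul_sum]
    exact Finset.sum_congr rfl fun i _ => by ring

theorem Psi_apply (g : MvPolynomial (Fin 3) L) (G : Fin c → MvPolynomial (Fin 3) L) (δ : ℕ)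
    (z : (homogeneousSubmodule (Fin 3) L δ × (∀ m, U3 L δ (d m))) × (Fin 3 → Fin (n + 1) → L))
    (m : Fin c) :
    Psi D P g G δ z m = (z.1.1 : MvPolynomial (Fin 3) L) * G m +
      g * (z.1.2 m : MvPolynomial (Fin 3) L) +
        ∑ p, ssub P (pderiv p (D.F m)) * ∑ i, C (z.2 i p) * X i := rfl

/-- **The dimension count**: the plane sections of the `F_m` have a common factor `g` of degree
`δ`. -/
theorem nofactor_gen (hP : LinearIndependent L P) (δ : ℕ) (g : MvPolynomial (Fin 3) L)
    (hg : g.IsHomogeneous δ) (hδ : 1 ≤ δ) (hg0 : g ≠ 0) (G : Fin c → MvPolynomial (Fin 3) L)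
    (hG : ∀ m, G m ∈ U3 L δ (d m)) (hF : ∀ m, ssub P (D.F m) = g * G m) :
    ∑ m, (d m + 2).choose 2 + 10 ≤
      (δ + 2).choose 2 + ∑ m, (if δ ≤ d m then (d m - δ + 2).choose 2 else 0) + 3 * (n + 1) := by
  classical
  have := finite_hom3 L δ
  have := fun m => finite_U3 (L := L) δ (d m)
  have := fun m => finite_hom3 L (d m)
  have hrn := LinearMap.finrank_range_add_finrank_ker (Psi D P g G δ)
  rw [Module.finrank_prod, Module.finrank_prod, Module.finrank_pi_fintype, finrank_hom3] at hrn
  simp only [finrank_U3] at hrn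
  have h3 : Module.finrank L (Fin 3 → Fin (n + 1) → L) = 3 * (n + 1) := by
    rw [Module.finrank_pi_fintype]
    simp
  rw [h3] at hrn
  -- the kernel
  have hker : 10 ≤ Module.finrank L (LinearMap.ker (Psi D P g G δ)) := by
    let v : Option (Fin 3 × Fin 3) →
        (homogeneousSubmodule (Fin 3) L δ × (∀ m, U3 L δ (d m))) × (Fin 3 → Fin (n + 1) → L) :=
      fun o => match o with
      | none => ((⟨g, hg⟩, fun m => ⟨- G m, (U3 L δ (d m)).neg_mem (hG m)⟩), 0)
      | some ik => ((⟨- (X ik.1 * pderiv ik.2 g), by
            have h1 := (isHomogeneous_X L ik.1).mul (hg.pderiv (i := ik.2))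
            rw [show 1 + (δ - 1) = δ by omega] at h1
            exact (homogeneousSubmodule (Fin 3) L δ).neg_mem h1⟩,
          fun m => ⟨- (X ik.1 * pderiv ik.2 (G m)),
            (U3 L δ (d m)).neg_mem (euler_U3 δ (d m) ik.1 ik.2 (hG m))⟩), Pi.single ik.1 (P ik.2))
    have hvk : ∀ o, v o ∈ LinearMap.ker (Psi D P g G δ) := by
      intro o
      rw [LinearMap.mem_ker]
      funext m
      rw [Psi_apply]
      rcases o with _ | ⟨i, k⟩
      · simp only [v, Pi.zero_apply, C_0, zero_mul, Finset.sum_const_zero, mul_zero, add_zero]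
        ring
      · simp only [v]
        have h1 := pderiv_ssub P k (D.F m)
        rw [hF m, Derivation.leibniz] at h1
        simp only [smul_eq_mul] at h1
        have h2 : ∑ p, ssub P (pderiv p (D.F m)) *
            ∑ i', C ((Pi.single i (P k) : Fin 3 → Fin (n + 1) → L) i' p) * X i' =
            X i * ∑ p, C (P k p) * ssub P (pderiv p (D.F m)) := by
          rw [Finset.mul_sum]
          refine Finset.sum_congr rfl fun p _ => ?_
          rw [Finset.sum_eq_single i]
          · rw [Pi.single_eq_same]
            ring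
          · intro i' _ hi'
            rw [Pi.single_eq_of_ne hi', Pi.zero_apply, C_0, zero_mul]
          · intro h
            exact absurd (Finset.mem_univ _) h
        rw [h2, ← h1, Pi.zero_apply]
        ring
    have hvi : LinearIndependent L v := by
      rw [Fintype.linearIndependent_iff]
      intro a ha
      rw [Fintype.sum_option] at ha
      have h1 : ∀ i k, a (some (i, k)) = 0 := by
        intro i
        have h2 := congrFun (congrArg Prod.snd ha) i
        rw [Prod.snd_add, Prod.smul_snd, Prod.snd_sum] at h2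
        simp only [v, smul_zero, zero_add, Prod.smul_snd, Prod.snd_zero] at h2
        rw [Finset.sum_apply, Fintype.sum_prod_type, Finset.sum_eq_single i] at h2
        · simp only [Pi.smul_apply, Pi.single_eq_same, Pi.zero_apply] at h2
          exact Fintype.linearIndependent_iff.1 hP (fun k => a (some (i, k))) h2
        · intro i' _ hi'
          refine Finset.sum_eq_zero fun k _ => ?_
          rw [Pi.smul_apply, Pi.single_eq_of_ne (Ne.symm hi'), smul_zero]
        · intro h
          exact absurd (Finset.mem_univ _) h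
      have h2 : a none = 0 := by
        simp only [h1, zero_smul, Finset.sum_const_zero, add_zero] at ha
        have h3 := congrArg (fun z => (z.1.1 : MvPolynomial (Fin 3) L)) ha
        have h4 : a none • g = 0 := h3
        exact (smul_eq_zero.1 h4).resolve_right hg0
      rintro (_ | ⟨i, k⟩)
      · exact h2
      · exact h1 i k
    have h5 : Submodule.span L (Set.range v) ≤ LinearMap.ker (Psi D P g G δ) :=
      Submodule.span_le.2 (by rintro _ ⟨o, rfl⟩; exact hvk o)
    have h6 := Submodule.finrank_mono h5
    rw [finrank_span_eq_card hvi] at h6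
    simpa using h6
  -- the range
  have hran : ∑ m, (d m + 2).choose 2 ≤ Module.finrank L (LinearMap.range (Psi D P g G δ)) := by
    let ι : (∀ m, homogeneousSubmodule (Fin 3) L (d m)) →ₗ[L] (Fin c → MvPolynomial (Fin 3) L) :=
      LinearMap.pi fun m => (homogeneousSubmodule (Fin 3) L (d m)).subtype ∘ₗ LinearMap.proj m
    have hι : Function.Injective ι := by
      intro z z' h
      funext m
      exact Subtype.ext (congrFun h m)
    have h1 : Module.finrank L (LinearMap.range ι) = ∑ m, (d m + 2).choose 2 := by
      rw [LinearMap.finrank_range_of_inj hι, Module.finrank_pi_fintype]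
      simp only [finrank_hom3]
    rw [← h1]
    refine Submodule.finrank_mono ?_
    -- single monomials
    have h2 : ∀ (m : Fin c) (I : Fin (n + 1) →₀ ℕ), I.degree = d m →
        (Pi.single m (ssub P (monomial I 1)) : Fin c → MvPolynomial (Fin 3) L) ∈
          LinearMap.range (Psi D P g G δ) := by
      intro m I hI
      refine ⟨((⟨dco (D.del m I) g, dco_hom _ hg⟩,
        fun m' => ⟨dco (D.del m I) (G m'), dco_U3 δ (d m') _ (hG m')⟩),
          fun i p => - D.del m I (P i p)), ?_⟩
      funext m'
      rw [Psi_apply]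
      simp only
      have h3 := dco_ssub P (D.del m I) (D.F m')
      rw [hF m', dco_mul, dco_F D m m' I hI] at h3
      have h4 : ∑ p, ssub P (pderiv p (D.F m')) * ∑ i, C (- D.del m I (P i p)) * X i =
          - ∑ p, ssub P (pderiv p (D.F m')) * ∑ i, C (D.del m I (P i p)) * X i := by
        rw [← Finset.sum_neg_distrib]
        refine Finset.sum_congr rfl fun p _ => ?_
        rw [← mul_neg, ← Finset.sum_neg_distrib]
        refine congrArg _ (Finset.sum_congr rfl fun i _ => ?_)
        rw [C_neg, neg_mul]
      rw [h4, h3]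
      by_cases hm : m = m'
      · subst hm
        rw [if_pos rfl, Pi.single_eq_same]
        ring
      · rw [if_neg hm, Pi.single_eq_of_ne (Ne.symm hm), map_zero]
        ring
    have h3 : ∀ (m : Fin c) (A : MvPolynomial (Fin (n + 1)) L), A.IsHomogeneous (d m) →
        (Pi.single m (ssub P A) : Fin c → MvPolynomial (Fin 3) L) ∈
          LinearMap.range (Psi D P g G δ) := by
      intro m A hA
      have h4 : (Pi.single m (ssub P A) : Fin c → MvPolynomial (Fin 3) L) =
          ∑ I ∈ A.support, coeff I A • Pi.single m (ssub P (monomial I 1)) := by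
        conv_lhs => rw [A.as_sum]
        rw [map_sum]
        have h5 := map_sum (LinearMap.single L (fun _ : Fin c => MvPolynomial (Fin 3) L) m)
          (fun I => ssub P (monomial I (coeff I A))) A.support
        simp only [LinearMap.coe_single] at h5
        rw [h5]
        refine Finset.sum_congr rfl fun I _ => ?_
        rw [← Pi.single_smul, ← map_smul, smul_monomial, smul_eq_mul, mul_one]
      rw [h4]
      refine Submodule.sum_mem _ fun I hI => Submodule.smul_mem _ _ (h2 m I ?_)
      have h6 := hA (mem_support_iff.1 hI)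
      rw [Finsupp.degree_eq_weight_one]
      exact h6
    rintro _ ⟨z, rfl⟩
    have h4 : ι z = ∑ m, (Pi.single m (z m : MvPolynomial (Fin 3) L) :
        Fin c → MvPolynomial (Fin 3) L) := by
      rw [Finset.univ_sum_single]
      rfl
    rw [h4]
    refine Submodule.sum_mem _ fun m _ => ?_
    obtain ⟨A, hA, hA'⟩ := ssub_surj P hP (z m).2
    rw [← hA']
    exact h3 m A hA
  omega

/-! ### one equation -/

theorem two_choose (T : ℕ) : 2 * (T + 2).choose 2 = (T + 2) * (T + 1) := by
  induction T with
  | zero => rfl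
  | succ T ih =>
    have h : (T + 1 + 2).choose 2 = (T + 2).choose 1 + (T + 2).choose 2 :=
      Nat.choose_succ_succ' (T + 2) 1
    rw [h, Nat.choose_one_right, mul_add, ih]
    ring

/-- **NOFACTOR**: the restriction of `F` to a plane is not a product `g g'` with
`3 n < deg g * deg g' + 6` (in particular not zero: `g = 0` is allowed). -/
theorem nofactor {d : Fin 1 → ℕ} (D : DSys L n 1 d) (hP : LinearIndependent L P) (δ δ' : ℕ)
    (g g' : MvPolynomial (Fin 3) L) (hg : g.IsHomogeneous δ) (hg' : g'.IsHomogeneous δ')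
    (hd : δ + δ' = d 0) (hδ : 1 ≤ δ) (h : 3 * n < δ * δ' + 6) :
    ssub P (D.F 0) ≠ g * g' := by
  intro hF
  wlog hg0 : g ≠ 0 generalizing g g'
  · rw [not_not] at hg0
    refine this (X 0 ^ δ) 0 (by simpa using (isHomogeneous_X L (0 : Fin 3)).pow δ)
      (isHomogeneous_zero _ _ _) ?_ (pow_ne_zero _ (X_ne_zero _))
    rw [hF, hg0, zero_mul, mul_zero]
  have h1 := nofactor_gen D P hP δ g hg hδ hg0 (fun _ => g') (fun m => by
      rw [Subsingleton.elim m 0, U3_pos (by omega), mem_homogeneousSubmodule]
      rwa [show d 0 - δ = δ' by omega]) (fun m => by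
      rw [Subsingleton.elim m 0]
      exact hF)
  simp only [Fin.sum_univ_one, Fin.isValue] at h1
  rw [if_pos (by omega), show d 0 - δ = δ' by omega, ← hd] at h1
  have h2 := two_choose (δ + δ')
  have h3 := two_choose δ
  have h4 := two_choose δ'
  nlinarith

/-- the restriction of `F` to a plane is not zero -/
theorem sec_ne_zero {d : Fin 1 → ℕ} (D : DSys L n 1 d) (hP : LinearIndependent L P)
    (hd : 2 ≤ d 0) (h : 3 * n + 4 < 2 * d 0 + 6) : ssub P (D.F 0) ≠ 0 := by
  intro h0
  refine nofactor P D hP 2 (d 0 - 2) 0 0 (isHomogeneous_zero _ _ _) (isHomogeneous_zero _ _ _)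
    (by omega) (by omega) (by omega) ?_
  rw [h0, mul_zero]

end count

/-! ### no singular points -/

section smooth

variable {L : Type} [Field L] {n c : ℕ} {d : Fin c → ℕ} (D : DSys L n c d)

/-- the complete intersection is smooth -/
theorem smooth_gen (z : Fin (n + 1) → L) (hz : z ≠ 0) (h0 : ∀ m, eval z (D.F m) = 0)
    (a : Fin c → L) (ha : ∀ p, ∑ m, a m * eval z (pderiv p (D.F m)) = 0) : a = 0 := by
  classical
  obtain ⟨j, hj⟩ := Function.ne_iff.1 hz
  rw [Pi.zero_apply] at hj
  funext m
  have h1 : ∀ m', ∑ p, eval z (pderiv p (D.F m')) * D.V z m (X j ^ d m) p =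
      if m = m' then - eval z (X j ^ d m) else 0 := fun m' =>
    Pool.Agent.Gen.H12.reln L n c d D z h0 m m' (X j ^ d m)
      (by simpa using (isHomogeneous_X L j).pow (d m))
  have h2 : ∑ m', a m' * ∑ p, eval z (pderiv p (D.F m')) * D.V z m (X j ^ d m) p =
      - a m * z j ^ d m := by
    simp only [h1]
    rw [Finset.sum_eq_single m]
    · rw [if_pos rfl, map_pow, eval_X]
      ring
    · intro m' _ hm'
      rw [if_neg (Ne.symm hm'), mul_zero]
    · intro h
      exact absurd (Finset.mem_univ _) h
  have h3 : ∑ m', a m' * ∑ p, eval z (pderiv p (D.F m')) * D.V z m (X j ^ d m) p = 0 := by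
    simp only [Finset.mul_sum]
    rw [Finset.sum_comm]
    refine Finset.sum_eq_zero fun p _ => ?_
    have h4 : ∑ m', a m' * (eval z (pderiv p (D.F m')) * D.V z m (X j ^ d m) p) =
        (∑ m', a m' * eval z (pderiv p (D.F m'))) * D.V z m (X j ^ d m) p := by
      rw [Finset.sum_mul]
      exact Finset.sum_congr rfl fun m' _ => by ring
    rw [h4, ha p, zero_mul]
  rw [h3] at h2
  have h5 : a m * z j ^ d m = 0 := by linear_combination h2
  exact (mul_eq_zero.1 h5).resolve_right (pow_ne_zero _ hj)

/-- **NS**: the hypersurface has no singular point -/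
theorem smooth_one [CharZero L] {d : Fin 1 → ℕ} (D : DSys L n 1 d) (hd : d 0 ≠ 0)
    (z : Fin (n + 1) → L) (h : ∀ p, eval z (pderiv p (D.F 0)) = 0) : z = 0 := by
  by_contra hz
  have h0 : eval z (D.F 0) = 0 := by
    have h1 := congrArg (eval z) ((D.hom 0).sum_X_mul_pderiv)
    rw [map_sum, map_nsmul, nsmul_eq_mul] at h1
    simp only [map_mul, h, mul_zero, Finset.sum_const_zero] at h1
    exact (mul_eq_zero.1 h1.symm).resolve_left (Nat.cast_ne_zero.2 hd)
  have h2 := smooth_gen D z hz (fun m => by rw [Subsingleton.elim m 0]; exact h0) (fun _ => 1)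
    (fun p => by rw [Fin.sum_univ_one, h p, mul_zero])
  exact one_ne_zero (congrFun h2 0)

end smooth

end Pool.Agent.Edge.H65
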