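import Pool.Agent.Lib.MP_c7af3c_ag.EDGE.Iface
import Pool.Agent.Lib.MP_c7af3c_ag.EDGE.H65.NoFactor

/-!
# MP_c7af3c_ag, project EDGE: modules NOF and NSG (helper65)
-/

set_option autoImplicit false

namespace Pool.Agent.Edge.H65

open MvPolynomial Pool.Agent.Gen

/-- Module NOF. -/
theorem nof : NofStatement := by
  intro Ω _ _ e D t P he ht hP g h δ δ' hg hh hd h2 h2'
  have hPi : LinearIndependent Ω P := by
    rw [Fintype.linearIndependent_iff]
    intro a ha i
    have h1 := congrFun ha (t i)
    rw [Finset.sum_apply, Pi.zero_apply, Finset.sum_eq_single i] at h1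
    · rwa [Pi.smul_apply, hP, if_pos rfl, smul_eq_mul, mul_one] at h1
    · intro j _ hj
      rw [Pi.smul_apply, hP, if_neg hj, smul_zero]
    · intro hi
      exact absurd (Finset.mem_univ _) hi
  refine nofactor P D hPi δ δ' g h hg hh hd (by omega) ?_
  obtain ⟨a, rfl⟩ := Nat.exists_eq_add_of_le h2
  obtain ⟨b, rfl⟩ := Nat.exists_eq_add_of_le h2'
  nlinarith [Nat.zero_le (a * b)]

/-- Module NSG. -/
theorem nsg : NsgStatement := by
  intro Ω _ _ n d D z hd hz
  by_contra h
  push Not at h
  exact hz (smooth_one D (by omega) z h)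

end Pool.Agent.Edge.H65
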